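import Mathlib
import Pool.Agent.Q183.Khin.Baire

set_option autoImplicit false

/-!
# `K` is meagre

For every exponent `p` the set of `ω ∈ {2,3,4,...}^ℕ` whose partial products form an `L^p`-Khintchin sequence is
meagre. For `p = 1` this is the set `K`.
-/

namespace Pool.Agent.Results.MP_1ea763_an.Meagre

open MeasureTheory Pool.Agent.Q183.Khin
open scoped ENNReal

/-- For every `p ∈ [0,∞]` the set of `ω ∈ {2,3,4,...}^ℕ` for which `(ω_n ⋯ ω_1)` is an `L^p`-Khintchin sequence is
meagre. -/
theorem result (p : ℝ≥0∞) :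
    IsMeagre {w : ℕ → {m : ℕ // 2 ≤ m} | LpKhintchin p (lamOf w)} := by
  have h := residual_rich (P := fun m => 2 ≤ m) (le_refl 2) (by norm_num) (fun m hm => by omega)
  exact Filter.mem_of_superset h fun w hw hK => Rich.not_khintchin hw p hK

end Pool.Agent.Results.MP_1ea763_an.Meagre
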